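import Pool.Agent.Helper49.RC.St

set_option autoImplicit false

open MeasureTheory Set Filter Metric

namespace Pool.Agent.Helper40.RC

open Helper97.CB Helper49.LT Helper49.RC

/-- the linear map `z ↦ z.re b + z.im w` -/
noncomputable def TT (b w : ℂ) : ℂ →ₗ[ℝ] ℂ where
  toFun z := (z.re : ℂ) * b + (z.im : ℂ) * w
  map_add' z₁ z₂ := by
    simp only [Complex.add_re, Complex.add_im, Complex.ofReal_add]; ring
  map_smul' c z := by
    simp only [Complex.real_smul, Complex.mul_re, Complex.ofReal_re, Complex.ofReal_im,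
      Complex.mul_im, zero_mul, sub_zero, add_zero, Complex.ofReal_mul, RingHom.id_apply]
    ring

theorem TT_apply (b w z : ℂ) : TT b w z = (z.re : ℂ) * b + (z.im : ℂ) * w := rfl

theorem det_TT (b w : ℂ) : LinearMap.det (TT b w) = - cr w b := by
  rw [← LinearMap.det_toMatrix Complex.basisOneI]
  rw [Matrix.det_fin_two]
  simp [LinearMap.toMatrix_apply, TT_apply, cr]
  ring

/-- the triangle with the vertices `0`, `1 + ia`, `1 + ib` -/
def Tri (a b : ℝ) : Set ℂ := {z | (0 ≤ z.re ∧ z.re ≤ 1) ∧ (z.re * a ≤ z.im ∧ z.im ≤ z.re * b)}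

theorem volume_Tri (a b : ℝ) (hab : a ≤ b) : volume (Tri a b) = ENNReal.ofReal ((b - a) / 2) := by
  obtain ⟨S, hS⟩ : ∃ S : Set (ℝ × ℝ), S = {p : ℝ × ℝ | (0 ≤ p.1 ∧ p.1 ≤ 1) ∧
    (p.1 * a ≤ p.2 ∧ p.2 ≤ p.1 * b)} := ⟨_, rfl⟩
  have h : Tri a b = Complex.measurableEquivRealProd ⁻¹' S := by
    ext z
    simp only [Tri, hS, mem_preimage, Complex.measurableEquivRealProd_apply]
    rfl
  have hSc : IsClosed S := by
    rw [hS]
    refine IsClosed.inter (IsClosed.inter ?_ ?_) (IsClosed.inter ?_ ?_)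
    · exact isClosed_le continuous_const continuous_fst
    · exact isClosed_le continuous_fst continuous_const
    · exact isClosed_le (continuous_fst.mul continuous_const) continuous_snd
    · exact isClosed_le continuous_snd (continuous_fst.mul continuous_const)
  rw [h, Complex.volume_preserving_equiv_real_prod.measure_preimage_equiv,
    Measure.volume_eq_prod, Measure.prod_apply hSc.measurableSet]
  have hsec : ∀ x : ℝ, volume (Prod.mk x ⁻¹' S) =
      (Icc (0 : ℝ) 1).indicator (fun x => ENNReal.ofReal (x * (b - a))) x := by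
    intro x
    by_cases hx : x ∈ Icc (0 : ℝ) 1
    · rw [indicator_of_mem hx]
      have : Prod.mk x ⁻¹' S = Icc (x * a) (x * b) := by
        ext y
        rw [hS]
        constructor
        · rintro ⟨_, h2⟩; exact h2
        · intro h2; exact ⟨hx, h2⟩
      rw [this, Real.volume_Icc]
      congr 1; ring
    · rw [indicator_of_notMem hx]
      have : Prod.mk x ⁻¹' S = ∅ := by
        ext y
        rw [hS]
        constructor
        · rintro ⟨h1, _⟩; exact absurd h1 hx
        · intro h2; exact absurd h2 (notMem_empty _)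
      rw [this, measure_empty]
  simp_rw [hsec]
  rw [lintegral_indicator measurableSet_Icc]
  rw [← ofReal_integral_eq_lintegral_ofReal]
  · congr 1
    rw [integral_Icc_eq_integral_Ioc, ← intervalIntegral.integral_of_le zero_le_one]
    rw [intervalIntegral.integral_mul_const, integral_id]
    ring
  · exact (continuous_id.mul continuous_const).continuousOn.integrableOn_Icc
  · refine (ae_restrict_iff' measurableSet_Icc).mpr (Eventually.of_forall fun x hx => ?_)
    exact mul_nonneg hx.1 (sub_nonneg.mpr hab)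

theorem le_sp {K : Set ℂ} (hK : IsCompact K) {z : ℂ} (hz : z ∈ K) (p : ℂ) :
    (z * (starRingEnd ℂ) p).re ≤ sp K p := by
  refine le_csSup (hK.bddAbove_image ?_) ⟨z, hz, rfl⟩
  exact (Complex.continuous_re.comp (continuous_id.mul continuous_const)).continuousOn

theorem sp_le {K : Set ℂ} (hK : K.Nonempty) {p : ℂ} {c : ℝ}
    (h : ∀ z ∈ K, (z * (starRingEnd ℂ) p).re ≤ c) : sp K p ≤ c := by
  refine csSup_le (hK.image _) ?_
  rintro _ ⟨z, hz, rfl⟩
  exact h z hz

theorem r_add (z : ℂ) (x d : ℝ) : (z * (starRingEnd ℂ) (ee (x + d))).re =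
    (z * (starRingEnd ℂ) (ee x)).re * Real.cos d + (z * (starRingEnd ℂ) (ee x)).im * Real.sin d := by
  rw [ee_add, map_mul, ← mul_assoc]
  rw [Complex.mul_re, Complex.conj_re, Complex.conj_im, ee_re, ee_im]
  ring

theorem r_sub (z : ℂ) (x d : ℝ) : (z * (starRingEnd ℂ) (ee (x - d))).re =
    (z * (starRingEnd ℂ) (ee x)).re * Real.cos d - (z * (starRingEnd ℂ) (ee x)).im * Real.sin d := by
  rw [sub_eq_add_neg, r_add, Real.cos_neg, Real.sin_neg]
  ring

theorem hHPO : StHpo := by
  intro K hK h0 N hN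
  obtain ⟨hconv, hcomp, _⟩ := hK
  have h0K : (0 : ℂ) ∈ K := interior_subset h0
  have hne : K.Nonempty := ⟨0, h0K⟩
  obtain ⟨δ, hδ⟩ : ∃ δ : ℝ, δ = 2 * Real.pi / N := ⟨_, rfl⟩
  rw [← hδ]
  have hN' : (5 : ℝ) ≤ N := by exact_mod_cast hN
  have hNpos : (0 : ℝ) < N := by linarith
  have hπ := Real.pi_pos
  have hδN : δ * N = 2 * Real.pi := by rw [hδ]; field_simp
  have hδ0 : 0 < δ := by rw [hδ]; positivity
  have hδ1 : δ < Real.pi / 2 := by
    have : δ * 5 ≤ δ * N := mul_le_mul_of_nonneg_left hN' hδ0.le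
    nlinarith
  have hcos : 0 < Real.cos δ := Real.cos_pos_of_mem_Ioo ⟨by linarith, hδ1⟩
  have hsin : 0 < Real.sin δ := Real.sin_pos_of_pos_of_lt_pi hδ0 (by linarith)
  -- support numbers
  obtain ⟨H, hH⟩ : ∃ H : ℤ → ℝ, H = fun i : ℤ => sp K (ee (δ * (i : ℝ))) := ⟨_, rfl⟩
  have hHper : ∀ i, H (i + N) = H i := by
    intro i
    have e : δ * ((i + N : ℤ) : ℝ) = δ * i + 2 * Real.pi := by
      push_cast; rw [mul_add, hδN]
    rw [hH]
    show sp K (ee (δ * ((i + N : ℤ) : ℝ))) = sp K (ee (δ * i))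
    rw [e, ee_per]
  have hHpos : ∀ i, 0 < H i := by
    intro i
    obtain ⟨ε, hε, hb⟩ := Metric.mem_nhds_iff.mp (mem_interior_iff_mem_nhds.mp h0)
    have hz : (((ε / 2 : ℝ) : ℂ) * ee (δ * i)) ∈ K := by
      apply hb
      rw [mem_ball_zero_iff, norm_mul, norm_ee, mul_one, Complex.norm_real, Real.norm_eq_abs,
        abs_of_pos (by linarith)]
      linarith
    have h1 := le_sp hcomp hz (ee (δ * i))
    rw [mul_assoc, ee_mul_conj, mul_one, Complex.ofReal_re] at h1
    have : H i = sp K (ee (δ * i)) := by rw [hH]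
    rw [this]; linarith
  have hHle : ∀ z ∈ K, ∀ i : ℤ, (z * (starRingEnd ℂ) (ee (δ * i))).re ≤ H i := by
    intro z hz i
    rw [hH]; exact le_sp hcomp hz _
  have hplus : ∀ i : ℤ, δ * ((i + 1 : ℤ) : ℝ) = δ * i + δ := by intro i; push_cast; ring
  have hminus : ∀ i : ℤ, δ * ((i - 1 : ℤ) : ℝ) = δ * i - δ := by intro i; push_cast; ring
  have hell : ∀ i, 0 ≤ H (i + 1) + H (i - 1) - 2 * H i * Real.cos δ := by
    intro i
    have h1 : H i ≤ (H (i + 1) + H (i - 1)) / (2 * Real.cos δ) := by
      rw [show H i = sp K (ee (δ * i)) by rw [hH]]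
      refine sp_le hne fun z hz => ?_
      rw [le_div_iff₀ (by positivity)]
      have a1 := hHle z hz (i + 1)
      have a2 := hHle z hz (i - 1)
      rw [hplus, r_add] at a1
      rw [hminus, r_sub] at a2
      linarith
    rw [le_div_iff₀ (by positivity)] at h1
    linarith
  -- the triangles
  obtain ⟨A, hA⟩ : ∃ A : ℤ → ℝ, A = fun i => -((H (i - 1) - H i * Real.cos δ) / Real.sin δ) := ⟨_, rfl⟩
  obtain ⟨B, hB⟩ : ∃ B : ℤ → ℝ, B = fun i => (H (i + 1) - H i * Real.cos δ) / Real.sin δ := ⟨_, rfl⟩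
  have hAB : ∀ i, B i - A i = (H (i + 1) + H (i - 1) - 2 * H i * Real.cos δ) / Real.sin δ := by
    intro i
    rw [hA, hB]
    field_simp
    ring
  have hABle : ∀ i, A i ≤ B i := by
    intro i
    have := div_nonneg (hell i) hsin.le
    rw [← hAB] at this
    linarith
  obtain ⟨Q, hQ⟩ : ∃ Q : ℤ → Set ℂ, Q = fun i : ℤ =>
    TT (ee (δ * i) * (H i : ℂ)) (ee (δ * i) * Complex.I) '' Tri (A i) (B i) := ⟨_, rfl⟩
  have hvolQ : ∀ i, volume (Q i) = ENNReal.ofReal (H i * (B i - A i) / 2) := by
    intro i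
    rw [hQ]
    show volume (TT (ee (δ * i) * (H i : ℂ)) (ee (δ * i) * Complex.I) '' Tri (A i) (B i)) = _
    rw [Measure.addHaar_image_linearMap, volume_Tri _ _ (hABle i), det_TT, cr_mul, norm_ee]
    rw [← ENNReal.ofReal_mul (abs_nonneg _)]
    congr 1
    have : cr Complex.I (H i : ℂ) = - H i := by
      unfold cr
      simp
    rw [this]
    rw [show -(1 ^ 2 * -H i) = H i by ring, abs_of_pos (hHpos i)]
    ring
  have hcover : K ⊆ ⋃ i ∈ Finset.range N, Q (i : ℕ) := by
    intro z hz
    have hr0 : (0 : ℕ) ∈ Finset.range N := Finset.mem_range.mpr (by omega)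
    by_cases hz0 : z = 0
    · subst hz0
      refine mem_biUnion hr0 ?_
      rw [hQ]
      refine ⟨0, ⟨⟨by simp, by simp⟩, ⟨by simp, by simp⟩⟩, ?_⟩
      rw [map_zero]
    -- the maximal ratio
    obtain ⟨i, hi, hmax⟩ := Finset.exists_max_image (Finset.range N)
      (fun i : ℕ => (z * (starRingEnd ℂ) (ee (δ * (i : ℤ)))).re / H i) ⟨0, hr0⟩
    obtain ⟨lam, hlam⟩ : ∃ lam : ℝ, lam = (z * (starRingEnd ℂ) (ee (δ * (i : ℤ)))).re / H i := ⟨_, rfl⟩
    have hall' : ∀ j ∈ Finset.range N, (z * (starRingEnd ℂ) (ee (δ * (j : ℤ)))).re ≤ lam * H j := by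
      intro j hj
      have := hmax j hj
      rw [← hlam, div_le_iff₀ (hHpos _)] at this
      exact this
    -- all integers
    have hper1 : ∀ (j : ℤ) (k : ℕ), ee (δ * ((j + k * N : ℤ) : ℝ)) = ee (δ * j) := by
      intro j k
      induction k with
      | zero => simp
      | succ k ih =>
        rw [← ih, ← ee_per (δ * ((j + k * N : ℤ) : ℝ))]
        congr 1
        push_cast
        linear_combination hδN
    have hall : ∀ j : ℤ, (z * (starRingEnd ℂ) (ee (δ * j))).re ≤ lam * H j := by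
      intro j
      have hNz : (0 : ℤ) < N := by omega
      obtain ⟨m, hm⟩ : ∃ m : ℕ, (m : ℤ) = j % N := ⟨(j % N).toNat, by
        rw [Int.toNat_of_nonneg (Int.emod_nonneg _ hNz.ne')]⟩
      have hmN : m ∈ Finset.range N := by
        rw [Finset.mem_range]
        have := Int.emod_lt_of_pos j hNz
        omega
      have hper2 : ee (δ * j) = ee (δ * (m : ℤ)) := by
        rcases le_total 0 (j / N) with hq | hq
        · obtain ⟨k, hk⟩ := Int.eq_ofNat_of_zero_le hq
          have : j = (m : ℤ) + k * N := by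
            rw [hm]
            have := Int.emod_add_mul_ediv j N
            rw [hk] at this
            linarith
          rw [this, hper1]
        · obtain ⟨k, hk⟩ := Int.eq_ofNat_of_zero_le (neg_nonneg.mpr hq)
          have : (m : ℤ) = j + k * N := by
            rw [hm]
            have := Int.emod_add_mul_ediv j N
            have h2 : j / N = -k := by linarith
            rw [h2] at this
            linarith
          rw [this, hper1]
      have hH2 : H j = H m := by
        rw [hH]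
        show sp K (ee (δ * j)) = sp K (ee (δ * ((m : ℤ) : ℝ)))
        rw [hper2]
      rw [hH2, hper2]
      exact hall' m hmN
    -- positivity
    have hlam0 : 0 < lam := by
      by_contra hcon
      have hcon' : lam ≤ 0 := not_lt.mp hcon
      have hneg : ∀ j : ℤ, (z * (starRingEnd ℂ) (ee (δ * j))).re ≤ 0 := fun j =>
        (hall j).trans (mul_nonpos_of_nonpos_of_nonneg hcon' (hHpos j).le)
      -- the sum of the directions vanishes
      have hζ : ee δ ^ N = 1 := by
        have := ee_int_mul N δ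
        rw [show ((N : ℤ) : ℝ) * δ = 2 * Real.pi by push_cast; linarith, ee_two_pi] at this
        rw [this]; simp
      have hζ1 : ee δ ≠ 1 := by
        intro h
        have := congrArg Complex.im h
        rw [ee_im, Complex.one_im] at this
        exact hsin.ne' this
      have hgeom : ∑ j ∈ Finset.range N, ee δ ^ j = 0 := by
        have := mul_geom_sum (ee δ) N
        rw [hζ, sub_self] at this
        exact (mul_eq_zero.mp this).resolve_left (sub_ne_zero.mpr hζ1)
      have hpow : ∀ j : ℕ, ee (δ * ((j : ℤ) : ℝ)) = ee δ ^ j := by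
        intro j
        have := ee_int_mul j δ
        rw [mul_comm, this]; simp
      have hsum : ∑ j ∈ Finset.range N, (z * (starRingEnd ℂ) (ee (δ * ((j : ℤ) : ℝ)))).re = 0 := by
        rw [← Complex.re_sum, ← Finset.mul_sum, ← map_sum]
        simp_rw [hpow]
        rw [hgeom]; simp
      have hz' := (Finset.sum_eq_zero_iff_of_nonpos (s := Finset.range N)
        (f := fun j : ℕ => (z * (starRingEnd ℂ) (ee (δ * ((j : ℤ) : ℝ)))).re)
        (fun j _ => hneg (j : ℤ))).mp hsum
      have e0 := hz' 0 hr0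
      have e1 := hz' 1 (Finset.mem_range.mpr (by omega))
      have e0' : z.re = 0 := by
        rw [show δ * (((0 : ℕ) : ℤ) : ℝ) = 0 by simp, ee_zero, map_one, mul_one] at e0
        exact e0
      have e1' : z.im = 0 := by
        rw [show δ * (((1 : ℕ) : ℤ) : ℝ) = 0 + δ by simp, r_add, ee_zero, map_one, mul_one, e0',
          zero_mul, zero_add] at e1
        exact (mul_eq_zero.mp e1).resolve_right hsin.ne'
      exact hz0 (Complex.ext e0' e1')
    refine mem_biUnion hi ?_
    rw [hQ]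
    -- coordinates
    obtain ⟨t, ht⟩ : ∃ t : ℝ, t = (z * (starRingEnd ℂ) (ee (δ * (i : ℤ)))).im := ⟨_, rfl⟩
    have hre : (z * (starRingEnd ℂ) (ee (δ * (i : ℤ)))).re = lam * H i := by
      rw [hlam]; field_simp [(hHpos i).ne']
    refine ⟨⟨lam, t⟩, ⟨⟨hlam0.le, ?_⟩, ⟨?_, ?_⟩⟩, ?_⟩
    · show lam ≤ 1
      rw [hlam, div_le_one (hHpos _)]
      exact hHle z hz i
    · show lam * A i ≤ t
      have h1 := hall (i - 1)
      rw [hminus, r_sub, hre, ← ht] at h1
      rw [hA]
      show lam * (-((H ((i : ℤ) - 1) - H i * Real.cos δ) / Real.sin δ)) ≤ t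
      rw [mul_neg, neg_le, ← mul_div_assoc, le_div_iff₀ hsin]
      linarith
    · show t ≤ lam * B i
      have h1 := hall (i + 1)
      rw [hplus, r_add, hre, ← ht] at h1
      rw [hB]
      show t ≤ lam * ((H ((i : ℤ) + 1) - H i * Real.cos δ) / Real.sin δ)
      rw [← mul_div_assoc, le_div_iff₀ hsin]
      linarith
    · rw [TT_apply]
      show (lam : ℂ) * (ee (δ * ((i : ℤ) : ℝ)) * (H i : ℂ)) + (t : ℂ) * (ee (δ * ((i : ℤ) : ℝ)) * Complex.I) = z
      have e1 : z * (starRingEnd ℂ) (ee (δ * (i : ℤ))) = ((lam * H i : ℝ) : ℂ) + (t : ℂ) * Complex.I := by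
        apply Complex.ext
        · rw [hre]; simp
        · rw [← ht]; simp
      have e2 : z = ee (δ * (i : ℤ)) * (z * (starRingEnd ℂ) (ee (δ * (i : ℤ)))) := by
        rw [mul_comm z, ← mul_assoc, ee_mul_conj, one_mul]
      rw [e2, e1]
      push_cast
      ring
  -- the area
  have harea : area K ≤ ∑ i ∈ Finset.range N, H i * (B i - A i) / 2 := by
    have h1 : volume K ≤ ∑ i ∈ Finset.range N, ENNReal.ofReal (H i * (B i - A i) / 2) := by
      refine (measure_mono hcover).trans ((measure_biUnion_finset_le _ _).trans ?_)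
      refine Finset.sum_le_sum fun i _ => ?_
      rw [hvolQ]
    have hnn : ∀ i ∈ Finset.range N, 0 ≤ H i * (B i - A i) / 2 := by
      intro i _
      have := hHpos i
      have := hABle i
      have : 0 ≤ B i - A i := by linarith
      positivity
    rw [← ENNReal.ofReal_sum_of_nonneg hnn] at h1
    exact ENNReal.toReal_le_of_le_ofReal (Finset.sum_nonneg hnn) h1
  have hshift : ∑ i ∈ Finset.range N, H i * H ((i : ℤ) - 1) =
      ∑ i ∈ Finset.range N, H i * H ((i : ℤ) + 1) := by
    obtain ⟨f, hf⟩ : ∃ f : ℕ → ℝ, f = fun i : ℕ => H (i : ℤ) * H ((i : ℤ) - 1) := ⟨_, rfl⟩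
    have h1 := Finset.sum_range_succ f N
    have h2 := Finset.sum_range_succ' f N
    have h3 : f N = f 0 := by
      rw [hf]
      show H (N : ℤ) * H ((N : ℤ) - 1) = H ((0 : ℕ) : ℤ) * H (((0 : ℕ) : ℤ) - 1)
      have a1 := hHper 0
      have a2 := hHper (-1)
      rw [zero_add] at a1
      rw [show (-1 + (N : ℤ)) = (N : ℤ) - 1 by ring] at a2
      rw [a1, a2]; simp
    have h4 : ∀ i : ℕ, f (i + 1) = H i * H ((i : ℤ) + 1) := by
      intro i
      rw [hf]
      show H ((i + 1 : ℕ) : ℤ) * H (((i + 1 : ℕ) : ℤ) - 1) = _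
      push_cast
      rw [show ((i : ℤ) + 1 - 1) = i by ring, mul_comm]
    have h5 : ∑ i ∈ Finset.range N, f (i + 1) = ∑ i ∈ Finset.range N, H i * H ((i : ℤ) + 1) :=
      Finset.sum_congr rfl fun i _ => h4 i
    rw [← h5]
    have h6 : ∑ i ∈ Finset.range N, H i * H ((i : ℤ) - 1) = ∑ i ∈ Finset.range N, f i := by
      rw [hf]
    rw [h6]
    linarith
  have hfin : (∑ i ∈ Finset.range N, H i * (B i - A i) / 2) * Real.sin δ =
      ∑ i ∈ Finset.range N, (H i * H ((i : ℤ) + 1) - Real.cos δ * H i ^ 2) := by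
    have h1 : (∑ i ∈ Finset.range N, H i * (B i - A i) / 2) * Real.sin δ =
        ∑ i ∈ Finset.range N, (H i * H ((i : ℤ) + 1) / 2 + H i * H ((i : ℤ) - 1) / 2
          - Real.cos δ * H i ^ 2) := by
      rw [Finset.sum_mul]
      refine Finset.sum_congr rfl fun i _ => ?_
      rw [hAB]
      field_simp
    rw [h1, Finset.sum_sub_distrib, Finset.sum_add_distrib, ← Finset.sum_div, ← Finset.sum_div, hshift,
      Finset.sum_sub_distrib]
    ring
  have hgoal : ∑ i ∈ Finset.range N,
      (sp K (ee (δ * i)) * sp K (ee (δ * (i + 1))) - Real.cos δ * sp K (ee (δ * i)) ^ 2) =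
      ∑ i ∈ Finset.range N, (H i * H ((i : ℤ) + 1) - Real.cos δ * H i ^ 2) := by
    refine Finset.sum_congr rfl fun i _ => ?_
    rw [hH]
    simp
  rw [hgoal, ← hfin]
  exact mul_le_mul_of_nonneg_right harea hsin.le

end Pool.Agent.Helper40.RC
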